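import Mathlib

/-!
# Definable predicates and functions on the natural numbers

Closure properties, for an arbitrary first-order structure on the natural numbers, in terms of
predicates on vectors (`Dp`) and of functions with a definable graph (`DF`).
-/

namespace Pool.Agent.H56.BN

open FirstOrder Set

universe u v

variable (L : FirstOrder.Language.{u, v}) [L.Structure ℕ] (A : Set ℕ)

/-- the predicate `P` on vectors is definable (with parameters in `A`) -/
def Dp {α : Type} (P : (α → ℕ) → Prop) : Prop := A.Definable L {w | P w}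

variable {L A} {α β γ : Type}

theorem Dp.congr {P Q : (α → ℕ) → Prop} (h : Dp L A P) (hPQ : ∀ w, P w ↔ Q w) : Dp L A Q := by
  have : P = Q := funext fun w => propext (hPQ w)
  rwa [← this]

theorem Dp.and {P Q : (α → ℕ) → Prop} (hP : Dp L A P) (hQ : Dp L A Q) :
    Dp L A (fun w => P w ∧ Q w) := Set.Definable.inter hP hQ

theorem Dp.or {P Q : (α → ℕ) → Prop} (hP : Dp L A P) (hQ : Dp L A Q) :
    Dp L A (fun w => P w ∨ Q w) := Set.Definable.union hP hQ

theorem Dp.not {P : (α → ℕ) → Prop} (hP : Dp L A P) : Dp L A (fun w => ¬ P w) :=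
  Set.Definable.compl hP

theorem Dp.imp {P Q : (α → ℕ) → Prop} (hP : Dp L A P) (hQ : Dp L A Q) :
    Dp L A (fun w => P w → Q w) := (hP.not.or hQ).congr (fun w => by tauto)

theorem Dp.comp {P : (α → ℕ) → Prop} (h : Dp L A P) (f : α → β) :
    Dp L A (fun w : β → ℕ => P (fun a => w (f a))) := Set.Definable.preimage_comp f h

theorem Dp.ex [Finite β] {Q : (α → ℕ) → (β → ℕ) → Prop}
    (h : Dp L A (fun w : α ⊕ β → ℕ => Q (fun a => w (Sum.inl a)) (fun b => w (Sum.inr b)))) :
    Dp L A (fun x => ∃ y, Q x y) := by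
  have := Set.Definable.exists_of_finite h
  exact this

theorem Dp.all [Finite β] {Q : (α → ℕ) → (β → ℕ) → Prop}
    (h : Dp L A (fun w : α ⊕ β → ℕ => Q (fun a => w (Sum.inl a)) (fun b => w (Sum.inr b)))) :
    Dp L A (fun x => ∀ y, Q x y) := by
  have := Set.Definable.forall_of_finite h
  exact this

theorem Dp.allFin [Finite β] {P : β → (α → ℕ) → Prop} (h : ∀ b, Dp L A (P b)) :
    Dp L A (fun w => ∀ b, P b w) := by
  have h1 := Set.definable_iInter_of_finite h
  have h2 : (⋂ b, {w | P b w}) = {w | ∀ b, P b w} := by ext; simp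
  rw [h2] at h1
  exact h1

theorem Dp.eqv (a b : α) : Dp L A (fun w => w a = w b) :=
  ⟨(FirstOrder.Language.Term.var a).equal (FirstOrder.Language.Term.var b), by ext; simp⟩

variable (L A) in
/-- the function `f` has a definable graph -/
def DF (f : (α → ℕ) → ℕ) : Prop :=
  Dp L A (fun w : α ⊕ Unit → ℕ => w (Sum.inr ()) = f (fun a => w (Sum.inl a)))

theorem DF.congr {f g : (α → ℕ) → ℕ} (h : DF L A f) (hfg : ∀ w, f w = g w) : DF L A g := by
  have : f = g := funext hfg
  rwa [← this]

theorem DF.var (a : α) : DF L A (fun w => w a) := Dp.eqv _ _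

theorem DF.lift {f : (α → ℕ) → ℕ} (h : DF L A f) (e : α → γ) :
    DF L A (fun w : γ → ℕ => f (fun a => w (e a))) := by
  have := Dp.comp h (Sum.map e id)
  exact this

/-- substitution of definable functions in a definable predicate -/
theorem Dp.subst [Finite β] {S : (β → ℕ) → Prop} (hS : Dp L A S) {f : β → (α → ℕ) → ℕ}
    (hf : ∀ i, DF L A (f i)) : Dp L A (fun w => S (fun i => f i w)) := by
  have h1 : Dp L A (fun w : α ⊕ β → ℕ =>
      (∀ i, w (Sum.inr i) = f i (fun a => w (Sum.inl a))) ∧ S (fun b => w (Sum.inr b))) := by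
    refine Dp.and (Dp.allFin (fun i => ?_)) (hS.comp Sum.inr)
    have := Dp.comp (hf i) (Sum.map id (fun _ => i) : α ⊕ Unit → α ⊕ β)
    exact this
  refine (Dp.ex (Q := fun x y => (∀ i, y i = f i x) ∧ S y) h1).congr ?_
  intro w
  constructor
  · rintro ⟨y, hy, hS'⟩
    have : y = fun i => f i w := funext hy
    rwa [← this]
  · intro h
    exact ⟨_, fun i => rfl, h⟩

/-- substitution of definable functions in a definable function -/
theorem DF.subst [Finite β] {F : (β → ℕ) → ℕ} (hF : DF L A F) {f : β → (α → ℕ) → ℕ}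
    (hf : ∀ i, DF L A (f i)) : DF L A (fun w => F (fun i => f i w)) := by
  have h1 : Dp L A (fun w : α ⊕ Unit → ℕ =>
      (fun z : β ⊕ Unit → ℕ => z (Sum.inr ()) = F (fun a => z (Sum.inl a)))
        (fun i => (Sum.elim (fun i (w : α ⊕ Unit → ℕ) => f i (fun a => w (Sum.inl a)))
          (fun _ (w : α ⊕ Unit → ℕ) => w (Sum.inr ())) : β ⊕ Unit → (α ⊕ Unit → ℕ) → ℕ) i w)) := by
    refine Dp.subst hF ?_
    rintro (i | i)
    · exact (hf i).lift Sum.inl
    · exact DF.var _
  exact h1

/-- addition is definable -/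
def HasAdd (L : FirstOrder.Language.{u, v}) [L.Structure ℕ] (A : Set ℕ) : Prop :=
  A.Definable L {w : Fin 3 → ℕ | w 0 = w 1 + w 2}

theorem DF.add (h : HasAdd L A) {f g : (α → ℕ) → ℕ} (hf : DF L A f) (hg : DF L A g) :
    DF L A (fun w => f w + g w) := by
  have h0 : DF L A (fun w : Fin 2 → ℕ => w 0 + w 1) := by
    have h1 : Dp L A (fun w : Fin 3 → ℕ => w 0 = w 1 + w 2) := h
    have := h1.comp (![Sum.inr (), Sum.inl 0, Sum.inl 1] : Fin 3 → Fin 2 ⊕ Unit)
    exact this
  have h1 := h0.subst (f := ![f, g]) (by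
    intro i
    fin_cases i
    · exact hf
    · exact hg)
  exact h1

theorem Dp.eq {f g : (α → ℕ) → ℕ} (hf : DF L A f) (hg : DF L A g) :
    Dp L A (fun w => f w = g w) := by
  have h0 : Dp L A (fun w : Fin 2 → ℕ => w 0 = w 1) := Dp.eqv 0 1
  have h1 := h0.subst (f := ![f, g]) (by
    intro i
    fin_cases i
    · exact hf
    · exact hg)
  exact h1

theorem DF.zero (h : HasAdd L A) : DF L A (fun _ : α → ℕ => 0) := by
  have h1 : Dp L A (fun w : Fin 3 → ℕ => w 0 = w 1 + w 2) := h
  have h2 := h1.comp (fun _ => Sum.inr () : Fin 3 → α ⊕ Unit)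
  refine h2.congr ?_
  intro w
  simp

theorem DF.one (h : HasAdd L A) : DF L A (fun _ : α → ℕ => 1) := by
  -- `x = 1` iff `x ≠ 0` and `x = y + z` implies `y = 0` or `z = 0`
  have h1 : Dp L A (fun w : (α ⊕ Unit) ⊕ Fin 2 → ℕ =>
      w (Sum.inl (Sum.inr ())) = w (Sum.inr 0) + w (Sum.inr 1) →
        (w (Sum.inr 0) = 0 ∨ w (Sum.inr 1) = 0)) := by
    refine Dp.imp (Dp.eq (DF.var _) (DF.add h (DF.var _) (DF.var _))) (Dp.or ?_ ?_)
    · exact Dp.eq (DF.var _) (DF.zero h)
    · exact Dp.eq (DF.var _) (DF.zero h)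
  have h2 := Dp.all (Q := fun (x : α ⊕ Unit → ℕ) (y : Fin 2 → ℕ) =>
    x (Sum.inr ()) = y 0 + y 1 → (y 0 = 0 ∨ y 1 = 0)) h1
  have h3 : Dp L A (fun w : α ⊕ Unit → ℕ => ¬ w (Sum.inr ()) = 0) :=
    (Dp.eq (DF.var _) (DF.zero h)).not
  refine (h3.and h2).congr ?_
  intro w
  generalize w (Sum.inr ()) = x
  constructor
  · rintro ⟨h4, h5⟩
    have h4' : x ≠ 0 := h4
    have h6 := h5 ![1, x - 1] (by simp; omega)
    simp at h6
    show x = 1
    omega
  · intro h4
    have h4' : x = 1 := h4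
    subst h4'
    refine ⟨one_ne_zero, ?_⟩
    intro y hy
    have hy' : 1 = y 0 + y 1 := hy
    show y 0 = 0 ∨ y 1 = 0
    omega

theorem DF.const (h : HasAdd L A) (k : ℕ) : DF L A (fun _ : α → ℕ => k) := by
  induction k with
  | zero => exact DF.zero h
  | succ k ih => exact DF.add h ih (DF.one h)

theorem DF.nmul (h : HasAdd L A) (k : ℕ) {f : (α → ℕ) → ℕ} (hf : DF L A f) :
    DF L A (fun w => k * f w) := by
  induction k with
  | zero => exact (DF.zero h).congr (fun w => by simp)
  | succ k ih => exact (DF.add h ih hf).congr (fun w => by ring)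

theorem DF.sum (h : HasAdd L A) {ι : Type*} (s : Finset ι) {f : ι → (α → ℕ) → ℕ}
    (hf : ∀ i, DF L A (f i)) : DF L A (fun w => ∑ i ∈ s, f i w) := by
  classical
  induction s using Finset.induction_on with
  | empty => exact (DF.zero h).congr (fun w => by simp)
  | insert a s ha ih =>
    exact (DF.add h (hf a) ih).congr (fun w => by rw [Finset.sum_insert ha])

/-- multiplication is definable as soon as squaring is -/
theorem mul_of_sq (h : HasAdd L A) (hsq : Dp L A (fun w : Fin 2 → ℕ => w 0 = w 1 * w 1)) :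
    A.Definable L {w : Fin 3 → ℕ | w 0 = w 1 * w 2} := by
  have hsq' : DF L A (fun w : Unit → ℕ => w () * w ()) := by
    have := hsq.comp (![Sum.inr (), Sum.inl ()] : Fin 2 → Unit ⊕ Unit)
    exact this
  have hs : ∀ {α : Type} {f : (α → ℕ) → ℕ}, DF L A f → DF L A (fun w => f w * f w) := by
    intro α f hf
    have := hsq'.subst (f := fun _ => f) (fun _ => hf)
    exact this
  have h1 : Dp L A (fun w : Fin 3 → ℕ => (w 1 + w 2) * (w 1 + w 2)
      = w 1 * w 1 + w 2 * w 2 + 2 * w 0) := by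
    refine Dp.eq (hs (DF.add h (DF.var _) (DF.var _))) ?_
    exact DF.add h (DF.add h (hs (DF.var _)) (hs (DF.var _))) (DF.nmul h 2 (DF.var _))
  refine h1.congr ?_
  intro w
  constructor
  · intro h2
    nlinarith
  · intro h2
    rw [h2]; ring

end Pool.Agent.H56.BN
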