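import Pool.Agent.H56.BN.Poly

/-!
# The three statements, from the family theorem and the doubling lemma
-/

namespace Pool.Agent.H56.BN

open FirstOrder Pool.Agent.H78.BN

theorem presburger_add (A : Set ℕ) :
    A.Definable Language.presburger {v : Fin 3 → ℕ | v 0 = v 1 + v 2} := by
  refine Set.Definable.mono (A := ∅) ?_ (Set.empty_subset A)
  rw [Set.empty_definable_iff]
  refine ⟨(Language.Term.var 0).equal
    ((Language.Term.var 1 : Language.presburger.Term (Fin 3)) + Language.Term.var 2), ?_⟩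
  ext v
  simp

theorem mul_definable_all (hfam : FamIff) (hdbl : Doubling) (n : ℕ) (hn : 4 ≤ n)
    (L : FirstOrder.Language.{0, 0}) [L.Structure ℕ] (A : Set ℕ)
    (h : A.Definable L {v : Fin 3 → ℕ | v 0 = v 1 + v 2})
    (hS : A.Definable L {d : Fin n → ℕ | (∀ i, 0 < d i) ∧ Bstar d < 3 / 4}) :
    A.Definable L {v : Fin 3 → ℕ | v 0 = v 1 * v 2} := by
  obtain ⟨m, rfl⟩ : ∃ m, n = 4 + m := ⟨n - 4, by omega⟩
  exact mul_definable hfam hdbl m h hS

theorem presburger_iff (hfam : FamIff) (hdbl : Doubling) (n : ℕ) (hn : 1 ≤ n) (A : Set ℕ) :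
    A.Definable Language.presburger {d : Fin n → ℕ | (∀ i, 0 < d i) ∧ Bstar d < 3 / 4} ↔
      n ≤ 3 := by
  constructor
  · intro h
    by_contra hcon
    exact Language.presburger.mul_not_definable
      (mul_definable_all hfam hdbl n (by omega) _ A (presburger_add A) h)
  · intro h3
    have hadd : HasAdd Language.presburger A := presburger_add A
    have h1 : Dp Language.presburger A (fun d : Fin n → ℕ => ∀ i, ¬ d i = 0) :=
      Dp.allFin (fun i => (Dp.eq (DF.var i) (DF.zero hadd)).not)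
    refine h1.congr ?_
    intro d
    constructor
    · intro h
      have hd : ∀ i, 0 < d i := fun i => Nat.pos_of_ne_zero (h i)
      exact ⟨hd, Bstar_lt_three h3 d hd (total_pos (by omega) hd)⟩
    · rintro ⟨h, _⟩ i
      exact Nat.ne_of_gt (h i)

theorem no_formula (hdbl : Doubling) (n : ℕ) (hn : 4 ≤ n) (m : ℕ)
    (P : Finset (MvPolynomial (Fin n) ℝ)) :
    ∃ d d' : Fin n → ℕ, (∀ i, 0 < d i) ∧ (∀ i, 0 < d' i) ∧
      (∀ p ∈ P, SignType.sign (MvPolynomial.eval (fun i => (d i : ℝ)) p)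
        = SignType.sign (MvPolynomial.eval (fun i => (d' i : ℝ)) p)) ∧
      (∀ k, 1 ≤ k → k ≤ m → ∀ i, d i ≡ d' i [MOD k]) ∧
      (∀ p, p.Prime → p ≤ m → ∀ i, padicValNat p (d i) = padicValNat p (d' i)) ∧
      Bstar d < 3 / 4 ∧ ¬ Bstar d' < 3 / 4 := by
  obtain ⟨m', rfl⟩ : ∃ m', n = 4 + m' := ⟨n - 4, by omega⟩
  exact no_formula_aux hdbl m' m P

end Pool.Agent.H56.BN
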