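import Pool.Agent.H78.BN.Generic2

/-!
# Four letters: the instances on the line `(t - w, t - 1, t, t + 1)`
-/

namespace Pool.Agent.H56.BN

open Finset Pool.Agent.H78.BN

theorem win_le {r : ℝ} {a b : ℤ} {k : ℤ} (h : ((b:ℝ) - a) * r + 1/2 < k + 1) :
    Fl r b - Cl r a ≤ k := by
  have h1 : ((Fl r b : ℤ) : ℝ) ≤ (b:ℝ) * r + 1/4 := by unfold Fl; exact Int.floor_le _
  have h2 : (a:ℝ) * r - 1/4 ≤ ((Cl r a : ℤ) : ℝ) := by unfold Cl; exact Int.le_ceil _
  have h3 : (((Fl r b - Cl r a : ℤ)) : ℝ) < ((k + 1 : ℤ) : ℝ) := by push_cast; linarith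
  have h4 : Fl r b - Cl r a < k + 1 := by exact_mod_cast h3
  omega

theorem win_nonneg {r : ℝ} {a b : ℤ} (h : 1/2 ≤ ((b:ℝ) - a) * r) :
    0 ≤ Fl r b - Cl r a := by
  have h1 : (b:ℝ) * r + 1/4 - 1 < ((Fl r b : ℤ) : ℝ) := by
    unfold Fl; exact_mod_cast Int.sub_one_lt_floor _
  have h2 : ((Cl r a : ℤ) : ℝ) < (a:ℝ) * r - 1/4 + 1 := by
    unfold Cl; exact_mod_cast Int.ceil_lt_add_one _
  have h3 : ((-1 : ℤ) : ℝ) < (((Fl r b - Cl r a : ℤ)) : ℝ) := by push_cast; linarith
  have h4 : -1 < Fl r b - Cl r a := by exact_mod_cast h3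
  omega

/-- the prefix condition for four letters -/
theorem prefix_four (d : Fin 4 → ℕ) (hd : ∀ i, 0 < d i) (hbad : ¬ BadMod d) (b : ℤ) :
    ∑ i, Fl (rate d i) b ≤ b := by
  have hD : 0 < total d := by
    unfold total
    exact Finset.sum_pos (fun i _ => hd i) ⟨0, mem_univ _⟩
  have hD' : (0:ℝ) < total d := by exact_mod_cast hD
  by_contra hcon
  push Not at hcon
  have h1 := sum_Fl_le d hD b
  have h2 : ((b:ℤ):ℝ) + 1 ≤ ((∑ i, Fl (rate d i) b : ℤ) : ℝ) := by exact_mod_cast hcon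
  apply hbad
  apply badMod_of_time d hd b
  intro i
  have h3 : ∀ j, ((Fl (rate d j) b : ℤ) : ℝ) ≤ (b:ℝ) * rate d j + 1/4 := by
    intro j; unfold Fl; exact Int.floor_le _
  have h4 : ∑ j, (((b:ℝ) * rate d j + 1/4) - ((Fl (rate d j) b : ℤ) : ℝ)) ≤ 0 := by
    rw [Finset.sum_sub_distrib, Finset.sum_add_distrib, ← Finset.mul_sum, sum_rate d hD]
    push_cast at h2
    simp
    linarith
  have h5 := Finset.single_le_sum
    (f := fun j => ((b:ℝ) * rate d j + 1/4) - ((Fl (rate d j) b : ℤ) : ℝ))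
    (fun j _ => by have := h3 j; linarith) (mem_univ i)
  have h6 : (b:ℝ) * rate d i + 1/4 = ((Fl (rate d i) b : ℤ) : ℝ) := by
    have := h3 i
    linarith
  refine ⟨Fl (rate d i) b, ?_⟩
  unfold rate at h6
  have h7 : ((4 * b * d i + total d : ℤ) : ℝ) = ((4 * total d * Fl (rate d i) b : ℤ) : ℝ) := by
    push_cast
    unfold rate
    field_simp at h6
    linarith
  exact_mod_cast h7

/-- the line -/
def line (w t : ℕ) : Fin 4 → ℕ := ![t - w, t - 1, t, t + 1]

theorem total_line {w t : ℕ} (hw : w < t) : total (line w t) = 4 * t - w := by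
  unfold total line
  rw [Fin.sum_univ_four]
  simp
  omega

theorem line_pos {w t : ℕ} (hw : w < t) (ht : 1 < t) : ∀ i, 0 < line w t i := by
  intro i
  unfold line
  fin_cases i
  · show 0 < t - w
    omega
  · show 0 < t - 1
    omega
  · show 0 < t
    omega
  · show 0 < t + 1
    omega

/-- The bad instances: the window `(4b, 4b+2]` has to contain three letters. -/
theorem line_bad {b w t : ℕ} (hb : 1 ≤ b) (h1 : (4 * b + 1) * w + 16 * b ≤ 4 * t)
    (h2 : 4 * t + 16 * b + 8 ≤ (4 * b + 3) * w) : ¬ Bstar (line w t) < 3 / 4 := by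
  have hwt : w < t := by nlinarith
  have hD : total (line w t) = 4 * t - w := total_line hwt
  have hDpos : 0 < total (line w t) := by rw [hD]; omega
  intro hB
  have h3 := hall_of_Bstar_lt (line w t) hDpos hB (4 * b) (4 * b + 2) (by omega)
  have hDR : (total (line w t) : ℝ) = 4 * t - w := by
    rw [hD, Nat.cast_sub (by omega)]; push_cast; ring
  have hDR0 : (0:ℝ) < 4 * t - w := by rw [← hDR]; exact_mod_cast hDpos
  have h1R : ((4 * b + 1) * w + 16 * b : ℝ) ≤ 4 * t := by exact_mod_cast h1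
  have h2R : (4 * t + 16 * b + 8 : ℝ) ≤ (4 * b + 3) * w := by exact_mod_cast h2
  have hb0 : (0:ℝ) ≤ b := by positivity
  -- a letter with demand between `t - 1` and `t + 1`
  have key : ∀ x : ℝ, (t:ℝ) - 1 ≤ x → x ≤ t + 1 →
      1 ≤ Fl (x / (4 * t - w)) ((4 * b + 2 : ℕ) : ℤ) - Cl (x / (4 * t - w)) ((4 * b : ℕ) : ℤ) := by
    intro x hx1 hx2
    have h4 : ((b + 1 : ℕ) : ℤ) ≤ Fl (x / (4 * t - w)) ((4 * b + 2 : ℕ) : ℤ) := by
      unfold Fl
      rw [Int.le_floor]
      push_cast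
      rw [← sub_le_iff_le_add, mul_div_assoc', le_div_iff₀ hDR0]
      nlinarith
    have h5 : Cl (x / (4 * t - w)) ((4 * b : ℕ) : ℤ) ≤ ((b : ℕ) : ℤ) := by
      unfold Cl
      rw [Int.ceil_le]
      push_cast
      rw [sub_le_iff_le_add, mul_div_assoc', div_le_iff₀ hDR0]
      nlinarith
    push_cast at h4 h5 ⊢
    omega
  have ht1 : ((t - 1 : ℕ) : ℝ) = t - 1 := by
    rw [Nat.cast_sub (by omega)]; push_cast; ring
  have k1 : (1:ℤ) ≤ max 0 (Fl (rate (line w t) 1) ((4 * b + 2 : ℕ) : ℤ)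
      - Cl (rate (line w t) 1) ((4 * b : ℕ) : ℤ)) := by
    have : rate (line w t) 1 = ((t:ℝ) - 1) / (4 * t - w) := by
      unfold rate; rw [hDR]
      show ((t - 1 : ℕ) : ℝ) / _ = _
      rw [ht1]
    rw [this]
    exact le_trans (key _ le_rfl (by linarith)) (le_max_right _ _)
  have k2 : (1:ℤ) ≤ max 0 (Fl (rate (line w t) 2) ((4 * b + 2 : ℕ) : ℤ)
      - Cl (rate (line w t) 2) ((4 * b : ℕ) : ℤ)) := by
    have : rate (line w t) 2 = (t:ℝ) / (4 * t - w) := by
      unfold rate; rw [hDR]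
      rfl
    rw [this]
    exact le_trans (key _ (by linarith) (by linarith)) (le_max_right _ _)
  have k3 : (1:ℤ) ≤ max 0 (Fl (rate (line w t) 3) ((4 * b + 2 : ℕ) : ℤ)
      - Cl (rate (line w t) 3) ((4 * b : ℕ) : ℤ)) := by
    have : rate (line w t) 3 = ((t:ℝ) + 1) / (4 * t - w) := by
      unfold rate; rw [hDR]
      show ((t + 1 : ℕ) : ℝ) / _ = _
      push_cast; ring
    rw [this]
    exact le_trans (key _ (by linarith) (le_refl _)) (le_max_right _ _)
  have k0 : (0:ℤ) ≤ max 0 (Fl (rate (line w t) 0) ((4 * b + 2 : ℕ) : ℤ)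
      - Cl (rate (line w t) 0) ((4 * b : ℕ) : ℤ)) := le_max_left _ _
  rw [Fin.sum_univ_four] at h3
  push_cast at h3 k0 k1 k2 k3
  omega

/-- a letter of rate `(b+1)/(4b+3)` is never needed in a window of length two -/
theorem gap_zero {b : ℕ} {r : ℝ} (hr : r = ((b:ℝ) + 1) / (4 * b + 3)) (a : ℤ) :
    Fl r (a + 2) - Cl r a ≤ 0 := by
  by_contra hcon
  push Not at hcon
  have h1 : Cl r a + 1 ≤ Fl r (a + 2) := by omega
  set N := Cl r a with hN
  have hK : (0:ℝ) < 4 * b + 3 := by positivity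
  have h2 : (a:ℝ) * r - 1/4 ≤ (N:ℝ) := by rw [hN]; unfold Cl; exact Int.le_ceil _
  have h3 : ((N + 1 : ℤ) : ℝ) ≤ ((a + 2 : ℤ) : ℝ) * r + 1/4 := by
    have h4 : ((N + 1 : ℤ) : ℝ) ≤ ((Fl r (a + 2) : ℤ) : ℝ) := by exact_mod_cast h1
    refine le_trans h4 ?_
    unfold Fl
    exact Int.floor_le _
  rw [hr] at h2 h3
  have h4 : (a:ℝ) ≤ (4 * b + 3) * (4 * N + 1 - a) := by
    rw [← sub_nonneg] at h2
    have : 0 ≤ (N - ((a:ℝ) * (((b:ℝ) + 1) / (4 * b + 3)) - 1/4)) * (4 * (4 * b + 3)) :=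
      mul_nonneg h2 (by positivity)
    have e : (N - ((a:ℝ) * (((b:ℝ) + 1) / (4 * b + 3)) - 1/4)) * (4 * (4 * b + 3))
        = 4 * N * (4 * b + 3) - 4 * a * (b + 1) + (4 * b + 3) := by
      field_simp; ring
    rw [e] at this
    nlinarith
  have h5 : (4 * (b:ℝ) + 3) * (4 * N + 1 - a) ≤ a + 2 := by
    rw [← sub_nonneg] at h3
    have : 0 ≤ (((a + 2 : ℤ) : ℝ) * (((b:ℝ) + 1) / (4 * b + 3)) + 1/4 - ((N + 1 : ℤ) : ℝ))
        * (4 * (4 * b + 3)) := mul_nonneg h3 (by positivity)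
    have e : (((a + 2 : ℤ) : ℝ) * (((b:ℝ) + 1) / (4 * b + 3)) + 1/4 - ((N + 1 : ℤ) : ℝ))
        * (4 * (4 * b + 3)) = 4 * (a + 2) * (b + 1) + (4 * b + 3) - 4 * (N + 1) * (4 * b + 3) := by
      push_cast
      field_simp
    rw [e] at this
    nlinarith
  have h6 : a ≤ (4 * (b:ℤ) + 3) * (4 * N + 1 - a) := by exact_mod_cast h4
  have h7 : (4 * (b:ℤ) + 3) * (4 * N + 1 - a) ≤ a + 2 := by exact_mod_cast h5
  have h8 : (4 * (b:ℤ) + 3) * (4 * N + 1 - a) - a
      = 4 * ((b:ℤ) * (4 * N + 1 - a) + 3 * N - a) + 3 := by ring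
  generalize (b:ℤ) * (4 * N + 1 - a) + 3 * N - a = z at h8
  omega

/-- The good instances. -/
theorem line_good {b w : ℕ} (hb : 2 ≤ b) (hw : 1 ≤ w) :
    Bstar (line w ((b + 1) * w)) < 3 / 4 := by
  set t := (b + 1) * w with ht
  have hwt : w < t := by rw [ht]; nlinarith
  have ht1 : 1 < t := by rw [ht]; nlinarith
  have hD : total (line w t) = 4 * t - w := total_line hwt
  have hDpos : 0 < total (line w t) := by rw [hD]; omega
  have hD3 : (total (line w t) : ℝ) = (4 * b + 3) * w := by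
    rw [hD, Nat.cast_sub (by omega), ht]; push_cast; ring
  have hwR : (1:ℝ) ≤ w := by exact_mod_cast hw
  have hbR : (2:ℝ) ≤ b := by exact_mod_cast hb
  have htR : (t:ℝ) = (b + 1) * w := by rw [ht]; push_cast; ring
  have hDR0 : (0:ℝ) < (4 * b + 3) * w := by positivity
  have r0 : rate (line w t) 0 = (b * w : ℝ) / ((4 * b + 3) * w) := by
    unfold rate; rw [hD3]
    show ((t - w : ℕ) : ℝ) / _ = _
    rw [Nat.cast_sub (le_of_lt hwt), htR]; congr 1; ring
  have r1 : rate (line w t) 1 = ((b + 1) * w - 1 : ℝ) / ((4 * b + 3) * w) := by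
    unfold rate; rw [hD3]
    show ((t - 1 : ℕ) : ℝ) / _ = _
    rw [Nat.cast_sub (by omega), htR]; push_cast; rfl
  have r2 : rate (line w t) 2 = ((b + 1) * w : ℝ) / ((4 * b + 3) * w) := by
    unfold rate; rw [hD3]
    show ((t : ℕ) : ℝ) / _ = _
    rw [htR]
  have r3 : rate (line w t) 3 = ((b + 1) * w + 1 : ℝ) / ((4 * b + 3) * w) := by
    unfold rate; rw [hD3]
    show ((t + 1 : ℕ) : ℝ) / _ = _
    push_cast; rw [htR]
  have r2' : rate (line w t) 2 = ((b:ℝ) + 1) / (4 * b + 3) := by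
    rw [r2]; field_simp
  -- bounds for the rates
  have hge : ∀ i, 1/6 ≤ rate (line w t) i := by
    intro i
    fin_cases i
    · show 1/6 ≤ rate (line w t) 0
      rw [r0, le_div_iff₀ hDR0]; nlinarith
    · show 1/6 ≤ rate (line w t) 1
      rw [r1, le_div_iff₀ hDR0]; nlinarith
    · show 1/6 ≤ rate (line w t) 2
      rw [r2, le_div_iff₀ hDR0]; nlinarith
    · show 1/6 ≤ rate (line w t) 3
      rw [r3, le_div_iff₀ hDR0]; nlinarith
  have hlt : ∀ i, rate (line w t) i < 1/2 := by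
    intro i
    fin_cases i
    · show rate (line w t) 0 < 1/2
      rw [r0, div_lt_iff₀ hDR0]; nlinarith
    · show rate (line w t) 1 < 1/2
      rw [r1, div_lt_iff₀ hDR0]; nlinarith
    · show rate (line w t) 2 < 1/2
      rw [r2, div_lt_iff₀ hDR0]; nlinarith
    · show rate (line w t) 3 < 1/2
      rw [r3, div_lt_iff₀ hDR0]; nlinarith
  have h0lt : rate (line w t) 0 < 1/4 := by
    rw [r0, div_lt_iff₀ hDR0]; nlinarith
  have hbad : ¬ BadMod (line w t) := by
    rintro ⟨g, c, ⟨s, hs⟩, hgc⟩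
    obtain ⟨t1, h1⟩ := hgc 2
    obtain ⟨t2, h2⟩ := hgc 3
    have h1' : t = g * (4 * t1 + c) := h1
    have h2' : t + 1 = g * (4 * t2 + c) := h2
    have hg : g ∣ 1 := by
      have e1 : g ∣ t := ⟨_, h1'⟩
      have e2 : g ∣ t + 1 := ⟨_, h2'⟩
      exact (Nat.dvd_add_right e1).mp e2
    have hg1 : g = 1 := Nat.dvd_one.mp hg
    rw [hg1] at h1' h2'
    omega
  have hpos := line_pos hwt ht1
  apply Bstar_lt_of_hall _ hDpos
  intro a b' hab _
  rcases Nat.lt_or_ge (b' - a) 3 with hL | hL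
  · have hcases : b' = a + 1 ∨ b' = a + 2 := by omega
    rcases hcases with h1 | h1
    · -- length one
      have hz : ∀ i, max 0 (Fl (rate (line w t) i) b' - Cl (rate (line w t) i) a) = 0 := by
        intro i
        apply max_eq_left
        apply win_le
        rw [h1]
        push_cast
        have := hlt i
        linarith
      rw [Finset.sum_congr rfl (fun i _ => hz i)]
      rw [h1]; simp
    · -- length two
      have hz0 : max 0 (Fl (rate (line w t) 0) b' - Cl (rate (line w t) 0) a) = 0 := by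
        apply max_eq_left
        apply win_le
        rw [h1]
        push_cast
        linarith
      have hz2 : max 0 (Fl (rate (line w t) 2) b' - Cl (rate (line w t) 2) a) = 0 := by
        apply max_eq_left
        have := gap_zero r2' (a:ℤ)
        rw [h1]
        push_cast
        exact this
      have hz1 : ∀ i, max 0 (Fl (rate (line w t) i) b' - Cl (rate (line w t) i) a) ≤ 1 := by
        intro i
        apply max_le zero_le_one
        apply win_le
        rw [h1]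
        push_cast
        have := hlt i
        linarith
      rw [Fin.sum_univ_four, hz0, hz2]
      have e1 := hz1 1
      have e3 := hz1 3
      rw [h1] at e1 e3 ⊢
      push_cast at e1 e3 ⊢
      omega
  · -- length at least three
    have hnn : ∀ i, 0 ≤ Fl (rate (line w t) i) b' - Cl (rate (line w t) i) a := by
      intro i
      apply win_nonneg
      have h1 : (3:ℝ) ≤ ((b':ℤ):ℝ) - ((a:ℤ):ℝ) := by
        have : (a:ℝ) + 3 ≤ b' := by exact_mod_cast (by omega : a + 3 ≤ b')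
        push_cast
        linarith
      have := hge i
      nlinarith
    have h2 : ∑ i, max 0 (Fl (rate (line w t) i) b' - Cl (rate (line w t) i) a)
        = ∑ i, Fl (rate (line w t) i) b' + ∑ i, Fl (rate (line w t) i) (-(a:ℤ)) := by
      rw [← Finset.sum_add_distrib]
      apply Finset.sum_congr rfl
      intro i _
      rw [max_eq_right (hnn i), Cl_eq_neg_Fl]; ring
    rw [h2]
    have h3 := prefix_four (line w t) hpos hbad b'
    have h4 := prefix_four (line w t) hpos hbad (-(a:ℤ))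
    omega

end Pool.Agent.H56.BN
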