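import Pool.Agent.H56.BN.Def
import Pool.Agent.H78.BN.Defs

/-!
# Multiplication is definable from addition and the set of the good instances
-/

namespace Pool.Agent.H56.BN

open FirstOrder Set Pool.Agent.H78.BN

universe u v

/-- an instance with `B*(d) < 3/4` -/
def Good {n : ℕ} (d : Fin n → ℕ) : Prop := (∀ i, 0 < d i) ∧ Bstar d < 3 / 4

/-- the set `S_n` of the instances with `n` letters and `B*(d) < 3/4` -/
def good (n : ℕ) : Set (Fin n → ℕ) := {d | (∀ i, 0 < d i) ∧ Bstar d < 3 / 4}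

/-- add `m` letters, each with the total demand of the letters before it -/
def ext : (m : ℕ) → (Fin 4 → ℕ) → (Fin (4 + m) → ℕ)
  | 0, d => d
  | m + 1, d => Fin.cons (total (ext m d)) (ext m d)

/-- helper32's family -/
def dvec (q m : ℕ) : Fin 4 → ℕ := ![m + 8 * q + 4, m + 8 * q + 4, m + 8 * q + 5, m]

/-- the statement of the doubling lemma -/
def Doubling : Prop := ∀ (n : ℕ) (d : Fin n → ℕ), 0 < total d →
  (Bstar (Fin.cons (total d) d : Fin (n + 1) → ℕ) < 3 / 4 ↔ Bstar d < 3 / 4)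

/-- the statement of the family theorem -/
def FamIff : Prop := ∀ q m : ℕ, 2 ≤ q → 8 * q ^ 2 + q ≤ m + 2 →
  (Bstar (![m + 8 * q + 4, m + 8 * q + 4, m + 8 * q + 5, m] : Fin 4 → ℕ) < 3 / 4 ↔
    8 * q ^ 2 + q < m + 2)

theorem total_pos {n : ℕ} (hn : 0 < n) {d : Fin n → ℕ} (hd : ∀ i, 0 < d i) : 0 < total d := by
  unfold total
  exact Finset.sum_pos (fun i _ => hd i) ⟨⟨0, hn⟩, Finset.mem_univ _⟩

theorem good_cons (hdbl : Doubling) {n : ℕ} (hn : 0 < n) (d : Fin n → ℕ) :
    Good (Fin.cons (total d) d : Fin (n + 1) → ℕ) ↔ Good d := by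
  unfold Good
  constructor
  · rintro ⟨h1, h2⟩
    have h3 : ∀ i, 0 < d i := by
      intro i
      have := h1 i.succ
      rwa [Fin.cons_succ] at this
    exact ⟨h3, (hdbl _ d (total_pos hn h3)).mp h2⟩
  · rintro ⟨h1, h2⟩
    refine ⟨?_, (hdbl _ d (total_pos hn h1)).mpr h2⟩
    intro i
    refine Fin.cases ?_ (fun j => ?_) i
    · rw [Fin.cons_zero]; exact total_pos hn h1
    · rw [Fin.cons_succ]; exact h1 j

theorem good_ext (hdbl : Doubling) (m : ℕ) (d : Fin 4 → ℕ) : Good (ext m d) ↔ Good d := by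
  induction m with
  | zero => exact Iff.rfl
  | succ m ih =>
    rw [← ih]
    exact good_cons hdbl (by omega) (ext m d)

variable {L : FirstOrder.Language.{u, v}} [L.Structure ℕ] {A : Set ℕ} {α : Type}

theorem DF_ext (h : HasAdd L A) (m : ℕ) : ∀ i, DF L A (fun d : Fin 4 → ℕ => ext m d i) := by
  induction m with
  | zero => intro i; exact DF.var i
  | succ m ih =>
    intro i
    refine Fin.cases ?_ (fun j => ?_) i
    · have := DF.sum h Finset.univ ih
      exact this
    · exact ih j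

theorem good_four (hdbl : Doubling) (h : HasAdd L A) (m : ℕ)
    (hS : Dp L A (fun d : Fin (4 + m) → ℕ => Good d)) : Dp L A (fun d : Fin 4 → ℕ => Good d) := by
  have h1 := hS.subst (DF_ext h m)
  refine h1.congr ?_
  intro w
  exact good_ext hdbl m w

theorem good_dvec (h : HasAdd L A) (hS : Dp L A (fun d : Fin 4 → ℕ => Good d))
    {fq fm : (α → ℕ) → ℕ} (hq : DF L A fq) (hm : DF L A fm) :
    Dp L A (fun w => Good (dvec (fq w) (fm w))) := by
  have h4 : ∀ k, DF L A (fun w => fm w + 8 * fq w + k) := fun k =>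
    DF.add h (DF.add h hm (DF.nmul h 8 hq)) (DF.const h k)
  have h1 := hS.subst (f := ![fun w => fm w + 8 * fq w + 4, fun w => fm w + 8 * fq w + 4,
    fun w => fm w + 8 * fq w + 5, fm]) (by
      intro i
      fin_cases i
      · exact h4 4
      · exact h4 4
      · exact h4 5
      · exact hm)
  refine h1.congr ?_
  intro w
  have : (fun i : Fin 4 => (![fun w => fm w + 8 * fq w + 4, fun w => fm w + 8 * fq w + 4,
    fun w => fm w + 8 * fq w + 5, fm] : Fin 4 → (α → ℕ) → ℕ) i w) = dvec (fq w) (fm w) := by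
    funext i
    unfold dvec
    fin_cases i <;> rfl
  rw [this]

/-- `m` is the last bad demand -/
def Last (q m : ℕ) : Prop := ¬ Good (dvec q m) ∧ ∀ z, Good (dvec q (m + 1 + z))

theorem last_iff (hfam : FamIff) {q : ℕ} (hq : 2 ≤ q) (m : ℕ) :
    Last q m ↔ 8 * q ^ 2 + q = m + 2 := by
  have hgood : ∀ m : ℕ, 8 * q ^ 2 + q ≤ m + 2 → (Good (dvec q m) ↔ 8 * q ^ 2 + q < m + 2) := by
    intro m hm
    have h1 := hfam q m hq hm
    unfold Good dvec
    rw [h1]
    constructor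
    · exact fun h => h.2
    · intro h
      refine ⟨?_, h⟩
      have h2 : 0 < m := by nlinarith
      intro i
      fin_cases i
      · show 0 < m + 8 * q + 4
        omega
      · show 0 < m + 8 * q + 4
        omega
      · show 0 < m + 8 * q + 5
        omega
      · exact h2
  constructor
  · rintro ⟨h1, h2⟩
    by_contra hne
    rcases Nat.lt_or_gt_of_ne hne with hlt | hgt
    · exact h1 ((hgood m (le_of_lt hlt)).mpr hlt)
    · have h3 := h2 (8 * q ^ 2 + q - 2 - (m + 1))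
      have h4 : 2 ≤ 8 * q ^ 2 + q := by nlinarith
      have h5 : m + 1 + (8 * q ^ 2 + q - 2 - (m + 1)) = 8 * q ^ 2 + q - 2 := by omega
      rw [h5] at h3
      have h6 := (hgood (8 * q ^ 2 + q - 2) (by omega)).mp h3
      omega
  · intro h
    constructor
    · rw [hgood m (le_of_eq h)]
      omega
    · intro z
      rw [hgood (m + 1 + z) (by omega)]
      omega

theorem sq_of_good (hfam : FamIff) (h : HasAdd L A)
    (hS : Dp L A (fun d : Fin 4 → ℕ => Good d)) :
    Dp L A (fun w : Fin 2 → ℕ => w 0 = w 1 * w 1) := by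
  -- the predicate on `(y, q, x, m)`
  have hG : Dp L A (fun w : Fin 2 ⊕ Fin 2 → ℕ =>
      (w (Sum.inl 1) = w (Sum.inr 0) + 2 ∧
        8 * w (Sum.inl 0) + w (Sum.inl 1) = w (Sum.inr 1) + 2) ∧
      Last (w (Sum.inl 1)) (w (Sum.inr 1))) := by
    refine Dp.and (Dp.and ?_ ?_) (Dp.and ?_ ?_)
    · exact Dp.eq (DF.var _) (DF.add h (DF.var _) (DF.const h 2))
    · exact Dp.eq (DF.add h (DF.nmul h 8 (DF.var _)) (DF.var _))
        (DF.add h (DF.var _) (DF.const h 2))
    · exact (good_dvec h hS (DF.var _) (DF.var _)).not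
    · have h1 : Dp L A (fun w : (Fin 2 ⊕ Fin 2) ⊕ Unit → ℕ =>
          Good (dvec (w (Sum.inl (Sum.inl 1))) (w (Sum.inl (Sum.inr 1)) + 1 + w (Sum.inr ())))) :=
        good_dvec h hS (DF.var _)
          (DF.add h (DF.add h (DF.var _) (DF.const h 1)) (DF.var _))
      have h2 := Dp.all (Q := fun (x : Fin 2 ⊕ Fin 2 → ℕ) (y : Unit → ℕ) =>
        Good (dvec (x (Sum.inl 1)) (x (Sum.inr 1) + 1 + y ()))) h1
      refine h2.congr ?_
      intro w
      constructor
      · intro h3 z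
        exact h3 (fun _ => z)
      · intro h3 y
        exact h3 (y ())
  have hE := Dp.ex (Q := fun (x : Fin 2 → ℕ) (y : Fin 2 → ℕ) =>
    (x 1 = y 0 + 2 ∧ 8 * x 0 + x 1 = y 1 + 2) ∧ Last (x 1) (y 1)) hG
  have h0 : Dp L A (fun w : Fin 2 → ℕ => w 1 = 0 ∧ w 0 = 0) :=
    Dp.and (Dp.eq (DF.var _) (DF.const h 0)) (Dp.eq (DF.var _) (DF.const h 0))
  have h1 : Dp L A (fun w : Fin 2 → ℕ => w 1 = 1 ∧ w 0 = 1) :=
    Dp.and (Dp.eq (DF.var _) (DF.const h 1)) (Dp.eq (DF.var _) (DF.const h 1))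
  refine ((h0.or h1).or hE).congr ?_
  intro w
  constructor
  · rintro ((⟨h2, h3⟩ | ⟨h2, h3⟩) | ⟨y, ⟨h2, h3⟩, h4⟩)
    · rw [h2, h3]
    · rw [h2, h3]
    · rw [last_iff hfam (by omega)] at h4
      nlinarith
  · intro h2
    rcases Nat.lt_or_ge (w 1) 2 with h3 | h3
    · left
      have : w 1 = 0 ∨ w 1 = 1 := by omega
      rcases this with h4 | h4
      · left; refine ⟨h4, ?_⟩; rw [h2, h4]
      · right; refine ⟨h4, ?_⟩; rw [h2, h4]
    · right
      have h5 : 2 ≤ 8 * w 0 + w 1 := by omega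
      refine ⟨![w 1 - 2, 8 * w 0 + w 1 - 2], ⟨?_, ?_⟩, ?_⟩
      · show w 1 = w 1 - 2 + 2
        omega
      · show 8 * w 0 + w 1 = 8 * w 0 + w 1 - 2 + 2
        omega
      · show Last (w 1) (8 * w 0 + w 1 - 2)
        rw [last_iff hfam h3, h2]
        have : 2 ≤ 8 * (w 1 * w 1) + w 1 := by omega
        have e : w 1 ^ 2 = w 1 * w 1 := by ring
        rw [e]
        omega

theorem mul_definable (hfam : FamIff) (hdbl : Doubling) (m : ℕ)
    (h : A.Definable L {w : Fin 3 → ℕ | w 0 = w 1 + w 2})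
    (hS : A.Definable L {d : Fin (4 + m) → ℕ | (∀ i, 0 < d i) ∧ Bstar d < 3 / 4}) :
    A.Definable L {w : Fin 3 → ℕ | w 0 = w 1 * w 2} :=
  mul_of_sq h (sq_of_good hfam h (good_four hdbl h m hS))

end Pool.Agent.H56.BN
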