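import Pool.Agent.H56.BN.Mul
import Pool.Agent.H56.BN.Line

/-!
# No finite Boolean combination of polynomial inequalities, congruences and valuations
-/

namespace Pool.Agent.H56.BN

open Finset Pool.Agent.H78.BN

/-! ### Signs and roots -/

theorem sign_eq_of_no_root (q : Polynomial ℝ) {x y : ℝ} (hxy : x ≤ y)
    (h : ∀ z ∈ q.roots, ¬ (x ≤ z ∧ z ≤ y)) :
    SignType.sign (q.eval x) = SignType.sign (q.eval y) := by
  rcases eq_or_ne q 0 with hq | hq
  · subst hq; simp
  have hne : ∀ z, x ≤ z → z ≤ y → q.eval z ≠ 0 := by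
    intro z h1 h2 h3
    exact h z ((Polynomial.mem_roots hq).mpr h3) ⟨h1, h2⟩
  have hcont : ContinuousOn (fun z => q.eval z) (Set.Icc x y) := q.continuous.continuousOn
  rcases lt_trichotomy (q.eval x) 0 with hx | hx | hx
  · rcases lt_trichotomy (q.eval y) 0 with hy | hy | hy
    · rw [sign_neg hx, sign_neg hy]
    · exact absurd hy (hne y hxy le_rfl)
    · obtain ⟨z, hz, hz0⟩ := intermediate_value_Icc hxy hcont ⟨le_of_lt hx, le_of_lt hy⟩
      exact absurd hz0 (hne z hz.1 hz.2)
  · exact absurd hx (hne x le_rfl hxy)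
  · rcases lt_trichotomy (q.eval y) 0 with hy | hy | hy
    · obtain ⟨z, hz, hz0⟩ := intermediate_value_Icc' hxy hcont ⟨le_of_lt hy, le_of_lt hx⟩
      exact absurd hz0 (hne z hz.1 hz.2)
    · exact absurd hy (hne y hxy le_rfl)
    · rw [sign_pos hx, sign_pos hy]

/-- one of `K + 1` disjoint intervals contains none of `K` points -/
theorem avoid (R : Finset ℝ) (K : ℕ) (hR : R.card ≤ K) (x y : ℕ → ℝ) (h1 : ∀ k, x k ≤ y k)
    (h2 : ∀ k, y k < x (k + 1)) : ∃ k ≤ K, ∀ z ∈ R, ¬ (x k ≤ z ∧ z ≤ y k) := by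
  by_contra hcon
  push Not at hcon
  have hx : StrictMono x := strictMono_nat_of_lt_succ fun k => lt_of_le_of_lt (h1 k) (h2 k)
  have hlt : ∀ k k', k < k' → y k < x k' := fun k k' hkk =>
    lt_of_lt_of_le (h2 k) (hx.monotone hkk)
  have hch : ∀ k : Fin (K + 1), ∃ z ∈ R, x k ≤ z ∧ z ≤ y k := fun k => hcon k (by omega)
  choose f hf hfx hfy using hch
  have hinj : Function.Injective f := by
    intro k k' hkk
    by_contra hne
    rcases lt_or_gt_of_ne hne with hlt' | hlt'
    · have := hlt k k' hlt'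
      have a1 := hfy k
      have a2 := hfx k'
      rw [hkk] at a1
      linarith
    · have := hlt k' k hlt'
      have a1 := hfy k'
      have a2 := hfx k
      rw [← hkk] at a1
      linarith
  have h3 : (Finset.univ : Finset (Fin (K + 1))).card ≤ R.card :=
    Finset.card_le_card_of_injOn f (fun k _ => hf k) (fun a _ b _ h => hinj h)
  rw [Finset.card_univ, Fintype.card_fin] at h3
  omega

/-! ### The coordinates on the line are polynomials of degree one -/

open Polynomial in
/-- the coordinates of `ext m (line w t)` as polynomials in `t` -/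
noncomputable def lp (w : ℝ) : (m : ℕ) → Fin (4 + m) → Polynomial ℝ
  | 0 => ![X - C w, X - C 1, X, X + C 1]
  | m + 1 => Fin.cons (∑ i, lp w m i) (lp w m)

theorem lp_degree (w : ℝ) (m : ℕ) : ∀ i, (lp w m i).natDegree ≤ 1 := by
  induction m with
  | zero =>
    intro i
    unfold lp
    fin_cases i
    · exact le_of_eq (Polynomial.natDegree_X_sub_C w)
    · exact le_of_eq (Polynomial.natDegree_X_sub_C 1)
    · exact Polynomial.natDegree_X_le
    · exact le_of_eq (Polynomial.natDegree_X_add_C 1)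
  | succ m ih =>
    intro i
    unfold lp
    refine Fin.cases ?_ (fun j => ?_) i
    · rw [Fin.cons_zero]
      exact Polynomial.natDegree_sum_le_of_forall_le _ _ (fun i _ => ih i)
    · rw [Fin.cons_succ]
      exact ih j

theorem lp_eval {w t : ℕ} (hw : w < t) (m : ℕ) :
    ∀ i, (lp (w:ℝ) m i).eval (t:ℝ) = (ext m (line w t) i : ℝ) := by
  induction m with
  | zero =>
    intro i
    unfold lp ext line
    fin_cases i
    · show (Polynomial.X - Polynomial.C (w:ℝ)).eval (t:ℝ) = ((t - w : ℕ) : ℝ)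
      rw [Nat.cast_sub (le_of_lt hw)]; simp
    · show (Polynomial.X - Polynomial.C (1:ℝ)).eval (t:ℝ) = ((t - 1 : ℕ) : ℝ)
      rw [Nat.cast_sub (by omega)]; simp
    · show (Polynomial.X : Polynomial ℝ).eval (t:ℝ) = ((t : ℕ) : ℝ)
      simp
    · show (Polynomial.X + Polynomial.C (1:ℝ)).eval (t:ℝ) = ((t + 1 : ℕ) : ℝ)
      simp
  | succ m ih =>
    intro i
    unfold lp ext
    refine Fin.cases ?_ (fun j => ?_) i
    · rw [Fin.cons_zero, Fin.cons_zero, Polynomial.eval_finsetSum]
      unfold total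
      push_cast
      exact Finset.sum_congr rfl (fun i _ => ih i)
    · rw [Fin.cons_succ, Fin.cons_succ]
      exact ih j

theorem aeval_lp {w t : ℕ} (hw : w < t) (m : ℕ) (p : MvPolynomial (Fin (4 + m)) ℝ) :
    (MvPolynomial.aeval (lp (w:ℝ) m) p).eval (t:ℝ)
      = MvPolynomial.eval (fun i => (ext m (line w t) i : ℝ)) p := by
  have h1 : (fun i => (ext m (line w t) i : ℝ)) = fun i => (lp (w:ℝ) m i).eval (t:ℝ) :=
    funext fun i => (lp_eval hw m i).symm
  rw [h1]
  induction p using MvPolynomial.induction_on with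
  | C a => simp
  | add p q hp hq => rw [map_add, Polynomial.eval_add, hp, hq, map_add]
  | mul_X p i hp => rw [map_mul, Polynomial.eval_mul, hp, map_mul]; simp

theorem aeval_lp_degree (w : ℝ) (m : ℕ) (p : MvPolynomial (Fin (4 + m)) ℝ) :
    (MvPolynomial.aeval (lp w m) p).natDegree ≤ p.totalDegree := by
  have := MvPolynomial.aeval_natDegree_le p le_rfl (lp w m) (lp_degree w m)
  rwa [mul_one] at this

/-! ### Congruences and valuations -/

theorem ext_modEq {M : ℕ} (m : ℕ) {d c : Fin 4 → ℕ} (h : ∀ i, d i ≡ c i [MOD M]) :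
    ∀ i, ext m d i ≡ ext m c i [MOD M] := by
  induction m with
  | zero => exact h
  | succ m ih =>
    intro i
    unfold ext
    refine Fin.cases ?_ (fun j => ?_) i
    · rw [Fin.cons_zero, Fin.cons_zero]
      unfold total
      exact Nat.ModEq.sum (fun i _ => ih i)
    · rw [Fin.cons_succ, Fin.cons_succ]
      exact ih j

theorem total_cons {n : ℕ} (a : ℕ) (d : Fin n → ℕ) :
    total (Fin.cons a d : Fin (n + 1) → ℕ) = a + total d := by
  unfold total
  rw [Fin.sum_univ_succ]
  simp only [Fin.cons_zero, Fin.cons_succ]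

theorem ext_c0 (m : ℕ) : total (ext m ![1, 1, 2, 3]) = 7 * 2 ^ m ∧
    ∀ i, ext m ![1, 1, 2, 3] i ∣ 42 * 2 ^ m := by
  induction m with
  | zero =>
    constructor
    · unfold ext total
      rw [Fin.sum_univ_four]; rfl
    · intro i
      unfold ext
      fin_cases i
      · show 1 ∣ 42 * 2 ^ 0
        norm_num
      · show 1 ∣ 42 * 2 ^ 0
        norm_num
      · show 2 ∣ 42 * 2 ^ 0
        norm_num
      · show 3 ∣ 42 * 2 ^ 0
        norm_num
  | succ m ih =>
    obtain ⟨h1, h2⟩ := ih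
    constructor
    · have h3 := total_cons (total (ext m ![1, 1, 2, 3])) (ext m ![1, 1, 2, 3])
      rw [h1] at h3
      have h4 : ext (m + 1) ![1, 1, 2, 3]
          = (Fin.cons (total (ext m ![1, 1, 2, 3])) (ext m ![1, 1, 2, 3]) :
            Fin (4 + m + 1) → ℕ) := rfl
      rw [h4, h1]
      exact h3.trans (by ring)
    · intro i
      unfold ext
      refine Fin.cases ?_ (fun j => ?_) i
      · rw [Fin.cons_zero, h1]
        exact ⟨12, by ring⟩
      · rw [Fin.cons_succ]
        exact (h2 j).trans ⟨2, by ring⟩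

theorem val_eq {p c M d : ℕ} (hp : p.Prime) (hM : 0 < M) (hcM : c * p ∣ M)
    (hd : d ≡ c [MOD M]) : padicValNat p d = padicValNat p c := by
  have : Fact p.Prime := ⟨hp⟩
  have hc : c ≠ 0 := by
    rintro rfl
    rw [zero_mul, zero_dvd_iff] at hcM
    omega
  have h1 : p ^ (padicValNat p c) ∣ c := pow_padicValNat_dvd
  have h2 : ¬ p ^ (padicValNat p c + 1) ∣ c := by
    rw [padicValNat_dvd_iff_le hc]; omega
  have h3 : p ^ (padicValNat p c + 1) ∣ M := by
    refine dvd_trans ?_ hcM
    rw [pow_succ]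
    exact Nat.mul_dvd_mul_right h1 p
  have h4 : d ≡ c [MOD p ^ (padicValNat p c + 1)] := hd.of_dvd h3
  have h5 : ¬ p ^ (padicValNat p c + 1) ∣ d := by
    intro h6
    exact h2 ((h4.dvd_iff dvd_rfl).mp h6)
  have hd0 : d ≠ 0 := by
    rintro rfl
    exact h5 (dvd_zero _)
  have h6 : p ^ (padicValNat p c) ∣ d := by
    refine (h4.dvd_iff ?_).mpr h1
    rw [pow_succ]
    exact dvd_mul_right _ _
  rw [padicValNat_dvd_iff_le hd0] at h5 h6
  omega

/-! ### The two points -/

theorem line_mod {M w t : ℕ} (hwt : w < t) (hw : w ≡ 1 [MOD M]) (ht : t ≡ 2 [MOD M]) :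
    ∀ i, line w t i ≡ (![1, 1, 2, 3] : Fin 4 → ℕ) i [MOD M] := by
  intro i
  unfold line
  fin_cases i
  · show t - w ≡ 1 [MOD M]
    apply Nat.ModEq.add_right_cancel hw
    rw [Nat.sub_add_cancel (le_of_lt hwt)]
    exact ht
  · show t - 1 ≡ 1 [MOD M]
    apply Nat.ModEq.add_right_cancel' 1
    rw [Nat.sub_add_cancel (by omega)]
    exact ht
  · exact ht
  · show t + 1 ≡ 3 [MOD M]
    exact ht.add_right 1

theorem no_formula_aux (hdbl : Doubling) (m' m : ℕ)
    (P : Finset (MvPolynomial (Fin (4 + m')) ℝ)) :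
    ∃ d d' : Fin (4 + m') → ℕ, (∀ i, 0 < d i) ∧ (∀ i, 0 < d' i) ∧
      (∀ p ∈ P, SignType.sign (MvPolynomial.eval (fun i => (d i : ℝ)) p)
        = SignType.sign (MvPolynomial.eval (fun i => (d' i : ℝ)) p)) ∧
      (∀ k, 1 ≤ k → k ≤ m → ∀ i, d i ≡ d' i [MOD k]) ∧
      (∀ p, p.Prime → p ≤ m → ∀ i, padicValNat p (d i) = padicValNat p (d' i)) ∧
      Bstar d < 3 / 4 ∧ ¬ Bstar d' < 3 / 4 := by
  classical
  set M := 42 * 2 ^ m' * m.factorial with hM
  have hMpos : 0 < M := by rw [hM]; positivity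
  set K := ∑ p ∈ P, p.totalDegree with hK
  set s := 8 * (K + 1) + 13 with hs
  set w := 2 * (M * s) + 1 with hw
  let b : ℕ → ℕ := fun k => M * (k + 1) + 1
  let y : ℕ → ℕ := fun k => (b k + 1) * w
  let x : ℕ → ℕ := fun k => b k * w + (M * s + 1)
  have hb : ∀ k, 2 ≤ b k := by
    intro k
    have : 1 ≤ M * (k + 1) := Nat.mul_pos hMpos (by omega)
    show 2 ≤ M * (k + 1) + 1
    omega
  have hbs : ∀ k, b k + 1 ≤ b (k + 1) := by
    intro k
    show M * (k + 1) + 1 + 1 ≤ M * (k + 1 + 1) + 1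
    nlinarith
  have hxy : ∀ k, x k ≤ y k := by
    intro k
    show b k * w + (M * s + 1) ≤ (b k + 1) * w
    rw [hw]; nlinarith
  have hyx : ∀ k, y k < x (k + 1) := by
    intro k
    show (b k + 1) * w < b (k + 1) * w + (M * s + 1)
    have := Nat.mul_le_mul_right w (hbs k)
    omega
  have hwx : ∀ k, w < x k := by
    intro k
    show w < b k * w + (M * s + 1)
    have := Nat.mul_le_mul_right w (hb k)
    omega
  have hwy : ∀ k, w < y k := fun k => lt_of_lt_of_le (hwx k) (hxy k)
  have hw1 : 1 ≤ w := by rw [hw]; omega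
  -- residues
  have hwM : w ≡ 1 [MOD M] := by
    have h1 : M * (2 * s) + 1 ≡ 0 + 1 [MOD M] :=
      Nat.ModEq.add_right 1 (Nat.modEq_zero_iff_dvd.mpr (dvd_mul_right _ _))
    have h2 : w = M * (2 * s) + 1 := by rw [hw]; ring
    rw [h2]; exact h1
  have hbM : ∀ k, b k ≡ 1 [MOD M] := by
    intro k
    exact Nat.ModEq.add_right 1 (Nat.modEq_zero_iff_dvd.mpr (dvd_mul_right _ _))
  have hyM : ∀ k, y k ≡ 2 [MOD M] := by
    intro k
    exact Nat.ModEq.mul (Nat.ModEq.add_right 1 (hbM k)) hwM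
  have hxM : ∀ k, x k ≡ 2 [MOD M] := by
    intro k
    have h1 : b k * w ≡ 1 * 1 [MOD M] := Nat.ModEq.mul (hbM k) hwM
    have h2 : M * s + 1 ≡ 0 + 1 [MOD M] :=
      Nat.ModEq.add_right 1 (Nat.modEq_zero_iff_dvd.mpr (dvd_mul_right _ _))
    exact Nat.ModEq.add h1 h2
  -- the roots
  let q : MvPolynomial (Fin (4 + m')) ℝ → Polynomial ℝ := fun p =>
    MvPolynomial.aeval (lp (w:ℝ) m') p
  let R : Finset ℝ := P.biUnion fun p => (q p).roots.toFinset
  have hR : R.card ≤ K := by
    refine le_trans Finset.card_biUnion_le ?_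
    rw [hK]
    refine Finset.sum_le_sum fun p _ => ?_
    refine le_trans (Multiset.toFinset_card_le _) ?_
    refine le_trans (Polynomial.card_roots' _) ?_
    exact aeval_lp_degree (w:ℝ) m' p
  obtain ⟨k, hkK, hk⟩ := avoid R K hR (fun k => (x k : ℝ)) (fun k => (y k : ℝ))
    (fun k => by exact_mod_cast hxy k) (fun k => by exact_mod_cast hyx k)
  -- the two instances
  have hxgt : 1 < x k := by have := hwx k; omega
  have hygt : 1 < y k := by have := hwy k; omega
  have hposx := line_pos (hwx k) hxgt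
  have hposy := line_pos (hwy k) hygt
  have hgood : Good (ext m' (line w (y k))) := by
    rw [good_ext hdbl]
    exact ⟨hposy, line_good (hb k) hw1⟩
  have hbad4 : ¬ Bstar (line w (x k)) < 3 / 4 := by
    have hwb : 16 * b k + 10 ≤ w := by
      show 16 * (M * (k + 1) + 1) + 10 ≤ w
      rw [hw, hs]
      have h1 : M * (k + 1) ≤ M * (K + 1) := Nat.mul_le_mul_left M (by omega)
      have h2 : M * (8 * (K + 1) + 13) = 8 * (M * (K + 1)) + 13 * M := by ring
      rw [h2]
      omega
    refine line_bad (b := b k) (by have := hb k; omega) ?_ ?_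
    · show (4 * b k + 1) * w + 16 * b k ≤ 4 * (b k * w + (M * s + 1))
      have e1 : (4 * b k + 1) * w = 4 * (b k * w) + w := by ring
      rw [e1]
      omega
    · show 4 * (b k * w + (M * s + 1)) + 16 * b k + 8 ≤ (4 * b k + 3) * w
      have e1 : (4 * b k + 3) * w = 4 * (b k * w) + 3 * w := by ring
      rw [e1]
      omega
  have hbad : ¬ Good (ext m' (line w (x k))) := by
    rw [good_ext hdbl]
    exact fun h => hbad4 h.2
  have hposx' : ∀ i, 0 < ext m' (line w (x k)) i := by
    have : ∀ j, ∀ i, 0 < ext j (line w (x k)) i := by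
      intro j
      induction j with
      | zero => exact hposx
      | succ j ih =>
        intro i
        unfold ext
        refine Fin.cases ?_ (fun l => ?_) i
        · rw [Fin.cons_zero]; exact total_pos (by omega) ih
        · rw [Fin.cons_succ]; exact ih l
    exact this m'
  have hmy := ext_modEq (M := M) m' (line_mod (hwy k) hwM (hyM k))
  have hmx := ext_modEq (M := M) m' (line_mod (hwx k) hwM (hxM k))
  refine ⟨ext m' (line w (y k)), ext m' (line w (x k)), hgood.1, hposx', ?_, ?_, ?_, hgood.2,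
    fun h => hbad ⟨hposx', h⟩⟩
  · intro p hp
    rw [← aeval_lp (hwy k) m' p, ← aeval_lp (hwx k) m' p]
    symm
    apply sign_eq_of_no_root _ (by exact_mod_cast hxy k)
    intro z hz
    apply hk z
    exact Finset.mem_biUnion.mpr ⟨p, hp, Multiset.mem_toFinset.mpr hz⟩
  · intro k' hk1 hk2 i
    have hdvd : k' ∣ M := by
      rw [hM]
      exact dvd_mul_of_dvd_right (Nat.dvd_factorial hk1 hk2) _
    exact ((hmy i).trans (hmx i).symm).of_dvd hdvd
  · intro p hp hpm i
    have hdvd : ext m' ![1, 1, 2, 3] i * p ∣ M := by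
      rw [hM]
      exact Nat.mul_dvd_mul ((ext_c0 m').2 i) (Nat.dvd_factorial hp.pos hpm)
    rw [val_eq hp hMpos hdvd (hmy i), val_eq hp hMpos hdvd (hmx i)]

end Pool.Agent.H56.BN
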